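import Pool.Agent.W519.G.ChrMain

/-!
# The torsors of periods of abelian varieties with complex multiplication by abelian fields

Let `X` be a product of abelian varieties over the field of algebraic numbers with complex
multiplication by number fields `E i` which are abelian over the rational numbers, and `T_X` the
product of the tori `Res_{E i / ℚ} G_m`. The group of the de Rham-Betti realization of `h^1(X)`, the
Mumford-Tate group of `X` (which is the motivic Galois group, by a theorem of André) and the group of
the smallest torsor `Ω` which contains the comparison isomorphism are subgroups of `T_X`, and are
determined by the characters of `T_X` which are trivial on them. We show: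

* the group of the de Rham-Betti realization is the Mumford-Tate group for all such `X` if and only
  if the CM type `Φ` of an abelian field `L` is determined by the de Rham-Betti realization of
  `h^1(A(L, Φ))` with its action of `L` (which is known, by the theorem of Wüstholz);
* if this is so, then for all such `X` the torsor `Ω` is the torsor of motivated periods if and only
  if the monomials in the periods of `X` which are algebraic numbers are stable under Galois
  conjugation.
-/

namespace Pool.Agent.Results.MP_f11a48_ag.GroupsOfCMMotives

open Pool.Agent.W519.G Pool.Agent.W547.KB Pool.Agent.W537.PC

theorem result (P : Periods) :
    ((∀ X : CMAV, (∀ i, IsAbelian (X.factor i).E) → drbChars P X = mtChars X) ↔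
      TypeDetermined P) ∧
    (TypeDetermined P → ∀ X : CMAV, (∀ i, IsAbelian (X.factor i).E) →
      (algChars P X = mtChars X ↔
        ∀ n ∈ algChars P X, ∀ τ : ℂ ≃+* ℂ, conjChar τ n ∈ algChars P X)) :=
  groups_iff P

end Pool.Agent.Results.MP_f11a48_ag.GroupsOfCMMotives
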