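import Pool.Agent.W537.KT.Twist

/-!
# De Rham-Betti classes on the powers of K3 surfaces and hyper-Kaehler varieties

Let `T` be a motive of K3 type and weight zero over `ℚ̄`, for example the transcendental part of
`H^2(X)(1)` for a K3 surface or a hyper-Kaehler variety `X` with `b_2(X) ≠ 3`. Suppose that the
algebra `E` of the endomorphisms of its Hodge structure is a totally real field (for instance `ℚ`),
and let `m` be the dimension of `T` over `E`. We show: if `m ≠ 5`, then, for every field `K` of
algebraic numbers, every de Rham-Betti class with coefficients in `K` in a Tate twist of a tensor
power of `T` is a combination of Hodge classes with coefficients in `K`. (With `K = ℚ`: the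
de Rham-Betti group of `T` is the Mumford-Tate group; with `K = ℚ̄`: the smallest torsor that contains
the period isomorphism is the torsor of motivated periods.)

The hypotheses are known theorems:

* `HodgeDeRham`: Hodge classes on the powers of `T` are motivated, hence de Rham classes (Deligne,
  André);
* `KugaSatake`: de Rham-Betti classes in the exterior powers of `T` are combinations of Hodge
  classes. Indeed, by the construction of Kuga and Satake (Deligne, André) the Clifford algebra of
  `T` is a direct summand of the motive `End(H^1(A))` of an abelian variety `A`, and the
  de Rham-Betti classes in `End(H^1(A))` are endomorphisms of `A` by the theorem of Wüstholz;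
* `Semisimple`: the de Rham-Betti realization of `T` is semisimple (Wüstholz again);
* `Zarhin`: the Lie algebra of the Hodge group of `T` consists of the skew `E`-linear maps;
* `SphereProperty m` for `m ≥ 3`, `m ≠ 5`: a reductive Lie algebra of skew matrices of size `m` which
  has no invariant alternating forms of degrees `0 < j < m` contains all skew matrices. This is the
  theorem of Kostant on invariant skew tensors (1956); it follows from the classification of the
  symmetric spaces which are real cohomology spheres (Wolf 1969); for `m = 5` there is the exception
  `SU(3)/SO(3)`.

The proof: let `g` be the complex Lie algebra of the matrices that annihilate all de Rham-Betti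
classes. It contains the logarithmic derivatives `C⁻¹ D(C)` of the period matrix for all derivations
`D` of `ℂ`, and is contained in the Lie algebra `h` of the Hodge group. By `KugaSatake`, `g` and `h`
have the same invariants in the exterior powers of `T`. The radical of the trace form of `g` is
central by `Semisimple` and the theory of nilpotent Lie algebras, so it gives invariant alternating
forms of degree two; hence it is zero. The Casimir element of `g` defines an alternating form of
degree four; since it is invariant under `h`, and `h` is a product of Lie algebras `so(m)`, the
components of the Casimir element in different factors vanish, so `g` is the product of its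
components in the factors. By `SphereProperty` every component is equal to `so(m)`. So `g = h`.
Finally a class in a Tate twist `(k)` defines a character of `h`, hence is zero for `k ≠ 0`, since
`2 π i` is transcendental.
-/

namespace Pool.Agent.Results.MP_f11a48_ag.KThreeSurfaces

open Pool.Agent.W537.KT Pool.Agent.W537.DB

/-- De Rham-Betti classes with coefficients in `K` in the tensor powers of `T` are the combinations
of Hodge classes; there are no nonzero de Rham-Betti classes in nontrivial Tate twists. -/
theorem result {ι : Type} [Fintype ι] [DecidableEq ι] (T : K3Motive ι)
    (K : IntermediateField ℚ ℂ) (hK : ∀ x ∈ K, IsAlgebraic ℚ x)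
    (hD : T.HodgeDeRham) (hKS : T.KugaSatake K) (hSS : T.Semisimple K) (hZ : T.Zarhin)
    (hW : ∀ m, 3 ≤ m → m ≠ 5 → SphereProperty m)
    (P : Matrix ι ι ℚ) (hP : T.RealMultiplication P) (m : ℕ)
    (hm : Fintype.card ι = m * (minpoly ℚ P).natDegree) (h5 : m ≠ 5) (n : ℕ)
    (f : Form ι (Fin n)) :
    (T.IsTwistedDRB K 0 f ↔ f ∈ Submodule.span K {g : Form ι (Fin n) | T.IsHodge g}) ∧
      ∀ k : ℤ, k ≠ 0 → T.IsTwistedDRB K k f → f = 0 :=
  ⟨⟨fun hf => (drb_hodge T K hK hD hKS hSS hZ hW P hP m hm h5 0 n f hf).1,
    fun hf => drb_of_hodge hK hD hf⟩,
    fun k hk hf => (drb_hodge T K hK hD hKS hSS hZ hW P hP m hm h5 k n f hf).2 hk⟩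

end Pool.Agent.Results.MP_f11a48_ag.KThreeSurfaces
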