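import Pool.Agent.W527.VFinal

/-!
# The period conjecture for motives of CM type: de Rham-Betti classes and Hodge classes

Let `A i = (E i, Φ i)` be finitely many CM types, with ARBITRARY CM fields `E i` and ARBITRARY
types, and let `M` be the sum of the motives `h^1 (A i)` of the corresponding abelian varieties over
the field of algebraic numbers. All tensor spaces of `M` are, up to Tate twists and duals (which are
given by polarizations), contained in the cohomology of the products `X` of copies of the `A i`. By
the theorem of Deligne and André Hodge classes on `X` are motivated, so `Ω^dRB_M = Ω^And_M` says that
every de Rham-Betti class in `H^{2k}(X)(k)`, for all `X` and `k`, is a Hodge class (`AllHodge`).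

As in earlier work in this repository (`Pool.Agent.W537.PC`, helper537) the periods enter as a
`PeriodSystem`: a nonzero number `θ A φ` for every CM type `A = (E, Φ)` and every embedding `φ` of
`E`, such that the theorem of Bost (de Rham-Betti classes of degree two on abelian varieties of CM
type are Hodge classes; a consequence of the theorem of Wüstholz) and the theorem of Deligne (Hodge
classes on abelian varieties are de Rham-Betti classes) hold. Both are theorems for the true periods.

The assumption on the CM types (`AbelianOrMild`): let `T i ⊆ E i`, `i ∈ S ≠ ∅`, be CM subfields.
The excess function of an embedding `ψ` of `T i` is the function `τ ↦` number of elements of `Φ i`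
that extend `τ ψ` minus number of the other extensions, on `Aut ℂ`. If no two excess functions are
proportional with a positive factor (`SeparatedFamily`), then all `T i`, `i ∈ S`, are abelian over
`ℚ`, or one of the following conditions holds (`MildFamily`).

* Some prime number divides the discriminant of one of the `T i`, `i ∈ S`, but its third power does
  not divide the product of their discriminants.
* Some automorphism of `ℂ` moves at least one and at most four of the embeddings of the `T i`.
* Some automorphism of `ℂ` acts on the pairs of conjugate embeddings of the `T i` as one cycle of
  odd prime length.

1. Criterion: All de Rham-Betti classes on all products are Hodge classes if and only if this is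
   true for the relations with two terms (`TwoTermRelations`): for an embedding `ψ` of a CM subfield
   `T` of `E i` let `Π ψ` be the product of the numbers `θ φ ^ 2 / (2 π i)` over the extensions `φ`
   of `ψ` to `E i` (the period of the determinant of `h^1 (A i)` over `T`); if all conjugates of
   `(Π ψ) ^ m / (Π ψ') ^ n` are algebraic, for embeddings `ψ`, `ψ'` of CM subfields of `E i`, `E i'`
   (the same subfield if `i = i'`), then `m` times the excess function of `ψ` is `n` times the
   excess function of `ψ'`.
2. The relations with two terms are explained in this way, so that `Ω^dRB_M = Ω^And_M`, if every CM
   subfield `T` of every `E i` is abelian over `ℚ`, or has excess of constant absolute value (for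
   instance `T = E i`), or contains no smaller CM field and has excesses with at most one nonzero
   absolute value, and if isomorphic CM subfields of different `E i` are abelian over `ℚ`
   (`SimpleSubfields`). The condition on a single `E i` holds for all CM fields of degree at most
   eight (a CM subfield of degree four of a CM field of degree eight is biquadratic or contains no
   smaller CM field, and has excesses `0`, `2`, `-2`), for all CM fields of degree twice a prime
   number, and for all CM fields whose proper CM subfields are abelian over `ℚ`. The `E i` may share
   abelian CM subfields.
-/

namespace Pool.Agent.Results.MP_f11a48_ag.MildCMMotives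

open Pool.Agent.W547.KB Pool.Agent.W537.PC Pool.Agent.W527.Per

/-- De Rham-Betti classes and Hodge classes on products of abelian varieties of CM type. -/
theorem result (P : PeriodSystem) (hBost : P.Bost) (hDeligne : P.Deligne) {ι : Type} [Fintype ι]
    (A : ι → CMPair) (hA : AbelianOrMild A) :
    (AllHodge P A ↔ TwoTermRelations P A) ∧ (SimpleSubfields A → AllHodge P A) :=
  ⟨allHodge_iff A hBost hDeligne hA, fun hS =>
    (allHodge_iff A hBost hDeligne hA).2 (twoTerm_of_simpleSubfields A hBost hDeligne hS)⟩

end Pool.Agent.Results.MP_f11a48_ag.MildCMMotives
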