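import Mathlib
import Pool.Agent.H204R3.GP.MTDefs
import Pool.Agent.W516.DRDefs
import Pool.Agent.W516.DRHodge
import Pool.Agent.W516.DRRank
import Pool.Agent.W516.DRStmt

/-!
# De Rham-Betti classes on the abelian varieties of relative dimension one

Let `A` be an abelian variety over an algebraically closed subfield `K` of the complex numbers (the
field of algebraic numbers), all of whose simple factors `B` are of one of the following two types:

* `End(B) ⊗ ℚ` is a totally real field of degree `dim B` (real multiplication; for `dim B = 1` these
  are the elliptic curves without complex multiplication);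
* `End(B) ⊗ ℚ` is a totally indefinite quaternion algebra over a totally real field of degree
  `dim B / 2` (quaternionic multiplication).

The factors may have multiplicities, and there is no condition on the dimensions.  We prove that all
de Rham-Betti classes with coefficients in any subfield `k` of `K` in the tensor powers of `H^1(A)`
(and so in the cohomology of all powers of `A`) are `k`-linear combinations of Hodge classes.  Hodge
classes on abelian varieties are motivated (André), and on the powers of these abelian varieties they
are even algebraic, by the theorem of Lefschetz on divisor classes.  So for `k = ℚ` this is the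
equality `Ω^dRB = Ω^And = Ω^mot` of torsors, and for `k = K` we get the equality for the smallest
torsor `Ω` over `K` which contains the comparison isomorphism.

The proof is by means of the logarithmic derivatives `D(Π) Π⁻¹` of the period matrix `Π`, `D` a
derivation of the complex numbers over `K`: a form with values in `k` is a de Rham-Betti class if and
only if it is killed by all `k`-rational components of these matrices, and in this way everything is
reduced to Lie algebras over `k`.  No Tannakian categories are used.

In the Lean statement `W` is `H_1(A, ℚ)`, `T` is the tangent space of `A(ℂ)` at the origin and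
`per : W → T` the inclusion, `ω₀` is the form given by a polarization.  `η` is a `K`-basis of
`H^1_dR(A / K)`, considered, by integration, as a basis of the space of the linear maps from `k ⊗ W`
to `ℂ`, and `τ` is `2 π i`.  The hypotheses `hss` and `hW` are consequences of the analytic subgroup
theorem of Wüstholz (applied to `H_1(A, ℚ) ⊗ k`; this is the theorem that all linear relations over
`K` between the periods of `A` come from the endomorphisms).
-/

namespace Pool.Agent.Results.MP_f11a48_ag.RelativeDimensionOneTorsor

open Module TensorProduct Pool.Agent.H204R3.GP Pool.Agent.W516.DR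

/-- All de Rham-Betti classes with coefficients in `k` on the powers of an abelian variety of
relative dimension one are combinations of Hodge classes. -/
theorem result {k K : Type} [Field k] [CharZero k] [Field K] [IsAlgClosed K] [CharZero K]
    [Algebra k K] [Algebra k ℂ] [Algebra K ℂ] [IsScalarTower k K ℂ]
    -- the complex torus `A(ℂ)` with a polarization
    {W T : Type} [AddCommGroup W] [Module ℚ W] [FiniteDimensional ℚ W]
    [AddCommGroup T] [Module ℂ T] (per : W →+ T) (hper : IsRationalStructure per)
    (ω₀ : W →ₗ[ℚ] W →ₗ[ℚ] ℚ) (hω₀ : IsHodgeBilinear per ω₀)
    (hnd : ∀ u, (∀ v, ω₀ u v = 0) → u = 0)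
    -- the type of `A`
    (hIV : NoTypeIV per ω₀) (h1 : RelativeDimensionOne per ω₀)
    -- the de Rham cohomology
    {ι : Type} [Fintype ι] (η : Basis ι ℂ (k ⊗[ℚ] W →ₗ[k] ℂ)) (τ : ℂ) (hτ : τ ≠ 0)
    (ω : k ⊗[ℚ] W →ₗ[k] k ⊗[ℚ] W →ₗ[k] k)
    (hωω : ∀ u v : W, ω ((1 : k) ⊗ₜ[ℚ] u) ((1 : k) ⊗ₜ[ℚ] v) = ((ω₀ u v : ℚ) : k))
    (hω : IsDeRhamBettiBilinear K η τ ω)
    -- the theorem of Wüstholz
    (hss : DeRhamBettiSemisimple K η) (hW : WustholzEnd per K η)
    (m : ℕ) (φ : MultilinearMap k (fun _ : Fin m × Fin 2 => k ⊗[ℚ] W) k)
    (hφ : IsDeRhamBettiForm K η τ m φ) : IsHodgeCombination per φ :=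
  drb_hodge per η ω₀ ω hper hω₀ hnd hτ hωω hω hss hW hIV h1 m φ hφ

end Pool.Agent.Results.MP_f11a48_ag.RelativeDimensionOneTorsor
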